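import Pool.Agent.L7h85.PW.Stm3

/-!
# Project PW (helper85): [ENDP], the local limit theorem with an end point
-/

set_option autoImplicit false

namespace Pool.Agent.L7h35.PW

open Finset Filter Topology

universe v

variable {Q : Type v} [AddCommGroup Q] {ι : Type} [Fintype ι] (w : ι → Q)

open Classical in
/-- the number of the walks with `n` steps from `0` to `v` -/
noncomputable def NN (v : Q) (n : ℕ) : ℝ :=
  ((univ.filter fun f : Fin n → ι => ∑ k, w (f k) = v).card : ℝ)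

open Classical in
lemma NN_eq (v : Q) (n : ℕ) : NN w v n = ∑ f : Fin n → ι, if ∑ k, w (f k) = v then (1 : ℝ) else 0 := by
  rw [NN, Finset.card_filter]
  push_cast
  rfl

lemma NN_nonneg (v : Q) (n : ℕ) : 0 ≤ NN w v n := Nat.cast_nonneg _

lemma NN_cw (n : ℕ) : (Pool.Agent.L7h85.GR.cw w n : ℝ) = NN w 0 n := by
  classical
  rw [Pool.Agent.L7h85.GR.cw, NN, Nat.card_eq_fintype_card, Fintype.card_subtype]

lemma NN_add (v : Q) (m n : ℕ) : NN w v (m + n) = ∑ f : Fin m → ι, NN w (v - ∑ k, w (f k)) n := by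
  classical
  rw [NN_eq, ← (Fin.appendEquiv m n).sum_comp, Fintype.sum_prod_type]
  refine Finset.sum_congr rfl fun f _ => ?_
  rw [NN_eq]
  refine Finset.sum_congr rfl fun g _ => ?_
  have h1 : ∑ k, w ((Fin.appendEquiv m n) (f, g) k) = ∑ k, w (f k) + ∑ k, w (g k) := by
    rw [Fin.sum_univ_add]
    congr 1
    · refine Finset.sum_congr rfl fun i _ => ?_
      congr 1
      exact Fin.append_left f g i
    · refine Finset.sum_congr rfl fun i _ => ?_
      congr 1
      exact Fin.append_right f g i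
  rw [h1]
  congr 1
  rw [eq_sub_iff_add_eq, add_comm]

lemma NN_succ (v : Q) (n : ℕ) : NN w v (n + 1) = ∑ i, NN w (v - w i) n := by
  classical
  rw [NN_eq, ← (Fin.consEquiv fun _ => ι).sum_comp, Fintype.sum_prod_type]
  refine Finset.sum_congr rfl fun f _ => ?_
  rw [NN_eq]
  refine Finset.sum_congr rfl fun g _ => ?_
  have h1 : ∑ k, w ((Fin.consEquiv fun _ => ι) (f, g) k) = w f + ∑ k, w (g k) := by
    rw [Fin.sum_univ_succ]
    rfl
  rw [h1]
  congr 1
  rw [eq_sub_iff_add_eq, add_comm]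

variable {w} {τ : ι → ι} (hτ : Function.Bijective τ) (hw : ∀ i, w (τ i) = -w i)

include hτ hw

lemma NN_neg (v : Q) (n : ℕ) : NN w (-v) n = NN w v n := by
  classical
  rw [NN_eq, NN_eq, ← (Equiv.arrowCongr (Equiv.refl (Fin n)) (Equiv.ofBijective τ hτ)).sum_comp]
  refine Finset.sum_congr rfl fun f _ => ?_
  have h1 : ∑ k, w ((Equiv.arrowCongr (Equiv.refl (Fin n)) (Equiv.ofBijective τ hτ)) f k) =
      -∑ k, w (f k) := by
    rw [← Finset.sum_neg_distrib]
    refine Finset.sum_congr rfl fun k _ => ?_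
    exact hw (f k)
  rw [h1]
  congr 1
  rw [neg_inj]

/-- products over a large finite set -/
lemma NN_conv (m : ℕ) (S : Finset Q) (s t : Q)
    (hS : ∀ f : Fin m → ι, ∑ k, w (f k) - s ∈ S) :
    ∑ u ∈ S, NN w (u + s) m * NN w (u + s + t) m = NN w t (2 * m) := by
  classical
  have h0 : NN w t (2 * m) = ∑ f : Fin m → ι, NN w (∑ k, w (f k) + t) m := by
    rw [← NN_neg hτ hw, two_mul, NN_add]
    refine Finset.sum_congr rfl fun f _ => ?_
    rw [← NN_neg hτ hw]
    congr 1
    abel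
  rw [h0]
  have h1 : ∀ u ∈ S, NN w (u + s) m * NN w (u + s + t) m =
      ∑ f : Fin m → ι, if u = ∑ k, w (f k) - s then NN w (∑ k, w (f k) + t) m else 0 := by
    intro u _
    rw [NN_eq, Finset.sum_mul]
    refine Finset.sum_congr rfl fun f _ => ?_
    by_cases h : ∑ k, w (f k) = u + s
    · rw [if_pos h, if_pos (by rw [h]; abel), one_mul, h]
    · rw [if_neg h, if_neg, zero_mul]
      intro h'
      exact h (by rw [h']; abel)
  rw [Finset.sum_congr rfl h1, Finset.sum_comm]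
  refine Finset.sum_congr rfl fun f _ => ?_
  rw [Finset.sum_ite_eq', if_pos (hS f)]

lemma NN_le (s : Q) (m : ℕ) : NN w s (2 * m) ≤ NN w 0 (2 * m) := by
  classical
  set W : Finset Q := univ.image fun f : Fin m → ι => ∑ k, w (f k) with hW
  have hmem : ∀ f : Fin m → ι, ∑ k, w (f k) ∈ W := fun f => mem_image_of_mem _ (mem_univ f)
  set S : Finset Q := W ∪ W.image (fun x => x - s) with hS
  have h0 : ∀ f : Fin m → ι, ∑ k, w (f k) - 0 ∈ S := fun f => by
    rw [sub_zero]
    exact mem_union_left _ (hmem f)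
  have hs : ∀ f : Fin m → ι, ∑ k, w (f k) - s ∈ S := fun f =>
    mem_union_right _ (mem_image_of_mem (fun x => x - s) (hmem f))
  have e1 := NN_conv hτ hw m S 0 0 h0
  have e2 := NN_conv hτ hw m S s 0 hs
  have e3 := NN_conv hτ hw m S 0 s h0
  simp only [add_zero] at e1 e2 e3
  have h1 : 0 ≤ ∑ u ∈ S, (NN w u m - NN w (u + s) m) ^ 2 := Finset.sum_nonneg fun _ _ => sq_nonneg _
  have h2 : ∑ u ∈ S, (NN w u m - NN w (u + s) m) ^ 2 =
      ∑ u ∈ S, NN w u m * NN w u m + ∑ u ∈ S, NN w (u + s) m * NN w (u + s) m -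
        2 * ∑ u ∈ S, NN w u m * NN w (u + s) m := by
    rw [Finset.mul_sum, ← Finset.sum_add_distrib, ← Finset.sum_sub_distrib]
    exact Finset.sum_congr rfl fun u _ => by ring
  rw [e1, e2, e3] at h2
  linarith

/-- the defect is almost subadditive -/
lemma NN_tri (s t : Q) (m : ℕ) : NN w 0 (2 * m) - NN w (s + t) (2 * m) ≤
    2 * (NN w 0 (2 * m) - NN w s (2 * m)) + 2 * (NN w 0 (2 * m) - NN w t (2 * m)) := by
  classical
  set W : Finset Q := univ.image fun f : Fin m → ι => ∑ k, w (f k) with hW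
  have hmem : ∀ f : Fin m → ι, ∑ k, w (f k) ∈ W := fun f => mem_image_of_mem _ (mem_univ f)
  set S : Finset Q := (W ∪ W.image (fun x => x - s)) ∪ W.image (fun x => x - (s + t)) with hS
  have h0 : ∀ f : Fin m → ι, ∑ k, w (f k) - 0 ∈ S := fun f => by
    rw [sub_zero]
    exact mem_union_left _ (mem_union_left _ (hmem f))
  have hs : ∀ f : Fin m → ι, ∑ k, w (f k) - s ∈ S := fun f =>
    mem_union_left _ (mem_union_right _ (mem_image_of_mem (fun x => x - s) (hmem f)))
  have hst : ∀ f : Fin m → ι, ∑ k, w (f k) - (s + t) ∈ S := fun f =>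
    mem_union_right _ (mem_image_of_mem (fun x => x - (s + t)) (hmem f))
  have e1 := NN_conv hτ hw m S 0 0 h0
  have e2 := NN_conv hτ hw m S s 0 hs
  have e3 := NN_conv hτ hw m S (s + t) 0 hst
  have e4 := NN_conv hτ hw m S 0 s h0
  have e5 := NN_conv hτ hw m S s t hs
  have e6 := NN_conv hτ hw m S 0 (s + t) h0
  simp only [add_zero] at e1 e2 e3 e4 e6
  have e5' : ∑ u ∈ S, NN w (u + s) m * NN w (u + (s + t)) m = NN w t (2 * m) := by
    rw [← e5]
    exact Finset.sum_congr rfl fun u _ => by rw [add_assoc u s t]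
  have h1 : ∑ u ∈ S, (NN w u m - NN w (u + (s + t)) m) ^ 2 ≤
      ∑ u ∈ S, (2 * (NN w u m - NN w (u + s) m) ^ 2 +
        2 * (NN w (u + s) m - NN w (u + (s + t)) m) ^ 2) := by
    refine Finset.sum_le_sum fun u _ => ?_
    nlinarith [sq_nonneg (NN w u m - 2 * NN w (u + s) m + NN w (u + (s + t)) m)]
  have h2 : ∑ u ∈ S, (NN w u m - NN w (u + (s + t)) m) ^ 2 =
      ∑ u ∈ S, NN w u m * NN w u m + ∑ u ∈ S, NN w (u + (s + t)) m * NN w (u + (s + t)) m -
        2 * ∑ u ∈ S, NN w u m * NN w (u + (s + t)) m := by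
    rw [Finset.mul_sum, ← Finset.sum_add_distrib, ← Finset.sum_sub_distrib]
    exact Finset.sum_congr rfl fun u _ => by ring
  have h3 : ∑ u ∈ S, (2 * (NN w u m - NN w (u + s) m) ^ 2 +
        2 * (NN w (u + s) m - NN w (u + (s + t)) m) ^ 2) =
      2 * ∑ u ∈ S, NN w u m * NN w u m + 4 * ∑ u ∈ S, NN w (u + s) m * NN w (u + s) m +
      2 * ∑ u ∈ S, NN w (u + (s + t)) m * NN w (u + (s + t)) m -
        4 * ∑ u ∈ S, NN w u m * NN w (u + s) m -
        4 * ∑ u ∈ S, NN w (u + s) m * NN w (u + (s + t)) m := by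
    rw [Finset.mul_sum, Finset.mul_sum, Finset.mul_sum, Finset.mul_sum, Finset.mul_sum,
      ← Finset.sum_add_distrib, ← Finset.sum_add_distrib, ← Finset.sum_sub_distrib,
      ← Finset.sum_sub_distrib]
    exact Finset.sum_congr rfl fun u _ => by ring
  rw [h2, h3, e1, e2, e3, e4, e5', e6] at h1
  linarith

omit hτ hw in
lemma NN_pos {i₀ : ι} (h0 : w i₀ = 0) (n : ℕ) : 0 < NN w 0 n := by
  classical
  rw [NN]
  have : 0 < (univ.filter fun f : Fin n → ι => ∑ k, w (f k) = 0).card := by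
    rw [Finset.card_pos]
    refine ⟨fun _ => i₀, ?_⟩
    rw [mem_filter]
    refine ⟨mem_univ _, ?_⟩
    simp only [h0, Finset.sum_const_zero]
  exact_mod_cast this

/-- the ratio of consecutive numbers of closed walks -/
lemma NN_ratio {i₀ : ι} (h0 : w i₀ = 0) :
    Tendsto (fun n : ℕ => NN w 0 (n + 1) / NN w 0 n) atTop (𝓝 (Fintype.card ι : ℝ)) := by
  obtain ⟨κ, hκ, h⟩ := Pool.Agent.L7h85.GR.lcl w hτ hw h0
  have hc : (0 : ℝ) < Fintype.card ι := by
    haveI : Nonempty ι := ⟨i₀⟩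
    exact_mod_cast Fintype.card_pos
  set r := Module.finrank ℤ (AddSubgroup.closure (Set.range w)) with hr
  have h1 := (h.comp (tendsto_add_atTop_nat 1)).div h hκ.ne'
  rw [div_self hκ.ne'] at h1
  have h2 : Tendsto (fun n : ℕ => √((n : ℝ) / (n + 1)) ^ r) atTop (𝓝 1) := by
    have h3 : Tendsto (fun n : ℕ => (n : ℝ) / (n + 1)) atTop (𝓝 1) :=
      tendsto_natCast_div_add_atTop 1
    have h4 := (h3.sqrt).pow r
    rwa [Real.sqrt_one, one_pow] at h4
  have h5 := (h1.mul h2).mul_const (Fintype.card ι : ℝ)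
  rw [one_mul, one_mul] at h5
  refine h5.congr' ?_
  filter_upwards [eventually_ge_atTop 1] with n hn
  have hn' : (0 : ℝ) < n := by exact_mod_cast hn
  simp only [Pi.div_apply, Function.comp_apply]
  rw [NN_cw, NN_cw]
  have hp := NN_pos h0 n
  have hs1 : (0 : ℝ) < √(n : ℝ) ^ r := pow_pos (Real.sqrt_pos.2 hn') r
  have hs2 : (0 : ℝ) < √((n : ℝ) + 1) ^ r := pow_pos (Real.sqrt_pos.2 (by linarith)) r
  rw [Real.sqrt_div hn'.le, div_pow]
  push_cast
  rw [pow_succ]
  field_simp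

lemma NN_even {i₀ : ι} (h0 : w i₀ = 0) {q : Q} (hq : q ∈ AddSubgroup.closure (Set.range w)) :
    Tendsto (fun m : ℕ => NN w q (2 * m) / NN w 0 (2 * m)) atTop (𝓝 1) := by
  have hpos : ∀ m, 0 < NN w 0 (2 * m) := fun m => NN_pos h0 _
  -- the equivalent form with the defect
  have key : ∀ s : Q, Tendsto (fun m : ℕ => (NN w 0 (2 * m) - NN w s (2 * m)) / NN w 0 (2 * m))
      atTop (𝓝 0) → Tendsto (fun m : ℕ => NN w s (2 * m) / NN w 0 (2 * m)) atTop (𝓝 1) := by
    intro s hs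
    have h1 := (tendsto_const_nhds (x := (1 : ℝ))).sub hs
    rw [sub_zero] at h1
    refine h1.congr fun m => ?_
    have := (hpos m).ne'
    field_simp
    ring
  apply key
  have hD0 : ∀ (s : Q) (m : ℕ), 0 ≤ (NN w 0 (2 * m) - NN w s (2 * m)) / NN w 0 (2 * m) :=
    fun s m => div_nonneg (sub_nonneg.2 (NN_le hτ hw s m)) (hpos m).le
  induction hq using AddSubgroup.closure_induction with
  | mem x hx =>
    obtain ⟨i, rfl⟩ := hx
    have h2 : Tendsto (fun m : ℕ => (2 * m : ℕ)) atTop atTop :=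
      tendsto_id.const_mul_atTop' (by norm_num)
    have h3 := (tendsto_const_nhds (x := (Fintype.card ι : ℝ))).sub
      ((NN_ratio hτ hw h0).comp h2)
    rw [sub_self] at h3
    refine squeeze_zero (hD0 _) (fun m => ?_) h3
    rw [Function.comp_apply]
    have h4 : NN w 0 (2 * m + 1) = ∑ i, NN w (w i) (2 * m) := by
      rw [NN_succ]
      refine Finset.sum_congr rfl fun i _ => ?_
      rw [zero_sub, NN_neg hτ hw]
    have h5 : ∑ i, (NN w 0 (2 * m) - NN w (w i) (2 * m)) =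
        Fintype.card ι * NN w 0 (2 * m) - NN w 0 (2 * m + 1) := by
      rw [Finset.sum_sub_distrib, ← h4, Finset.sum_const, nsmul_eq_mul, Finset.card_univ]
    have h6 : NN w 0 (2 * m) - NN w (w i) (2 * m) ≤
        ∑ i, (NN w 0 (2 * m) - NN w (w i) (2 * m)) :=
      Finset.single_le_sum (f := fun i => NN w 0 (2 * m) - NN w (w i) (2 * m))
        (fun j _ => sub_nonneg.2 (NN_le hτ hw _ m)) (Finset.mem_univ i)
    rw [div_le_iff₀ (hpos m), sub_mul, div_mul_cancel₀ _ (hpos m).ne']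
    linarith
  | zero =>
    refine tendsto_const_nhds.congr fun m => ?_
    rw [sub_self, zero_div]
  | add x y _ _ hx hy =>
    have h1 := (hx.const_mul 2).add (hy.const_mul 2)
    rw [mul_zero, add_zero] at h1
    refine squeeze_zero (hD0 _) (fun m => ?_) h1
    rw [← mul_div_assoc, ← mul_div_assoc, ← add_div]
    exact div_le_div_of_nonneg_right (NN_tri hτ hw x y m) (hpos m).le
  | neg x _ hx =>
    refine hx.congr fun m => ?_
    rw [NN_neg hτ hw]

theorem endp {i₀ : ι} (h0 : w i₀ = 0) {q : Q} (hq : q ∈ AddSubgroup.closure (Set.range w)) :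
    Tendsto (fun n : ℕ => NN w q n / NN w 0 n) atTop (𝓝 1) := by
  have hc : (0 : ℝ) < Fintype.card ι := by
    haveI : Nonempty ι := ⟨i₀⟩
    exact_mod_cast Fintype.card_pos
  have he := NN_even hτ hw h0 hq
  have ho : Tendsto (fun m : ℕ => NN w q (2 * m + 1) / NN w 0 (2 * m + 1)) atTop (𝓝 1) := by
    have h1 : ∀ i, Tendsto (fun m : ℕ => NN w (q - w i) (2 * m) / NN w 0 (2 * m)) atTop (𝓝 1) :=
      fun i => NN_even hτ hw h0 (AddSubgroup.sub_mem _ hq
        (AddSubgroup.subset_closure (Set.mem_range_self i)))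
    have h2 := tendsto_finsetSum (Finset.univ : Finset ι) fun i _ => h1 i
    rw [Finset.sum_const, nsmul_eq_mul, mul_one, Finset.card_univ] at h2
    have h3 : Tendsto (fun m : ℕ => (2 * m : ℕ)) atTop atTop :=
      tendsto_id.const_mul_atTop' (by norm_num)
    have h4 := (NN_ratio hτ hw h0).comp h3
    have h5 := h2.div h4 hc.ne'
    rw [div_self hc.ne'] at h5
    refine h5.congr fun m => ?_
    simp only [Pi.div_apply, Function.comp_apply]
    have e1 := (NN_pos h0 (2 * m) (w := w)).ne'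
    have e2 := (NN_pos h0 (2 * m + 1) (w := w)).ne'
    rw [NN_succ w q, ← Finset.sum_div]
    field_simp
  rw [Metric.tendsto_atTop] at he ho ⊢
  intro ε hε
  obtain ⟨N1, h1⟩ := he ε hε
  obtain ⟨N2, h2⟩ := ho ε hε
  refine ⟨2 * (N1 + N2), fun n hn => ?_⟩
  rcases Nat.even_or_odd' n with ⟨m, rfl | rfl⟩
  · exact h1 m (by omega)
  · exact h2 m (by omega)

omit hτ hw in
theorem s_ENDP : Pool.Agent.L7h85.PW.S_ENDP.{v} := by
  intro Q _ ι _ w τ hτ hw i₀ h0 q hq
  refine (endp hτ hw h0 hq).congr fun n => ?_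
  rw [NN_cw, NN]

end Pool.Agent.L7h35.PW
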