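import Mathlib
import Pool.Agent.L7h85.PW.Stm
import Pool.Agent.L7h32.RL.Gen
import Pool.Agent.L7h73.RL.Clo
import Pool.Agent.L7h26.RL.Sum

/-!
# Project PW (helper85): [FTEN]

Tensor products of objects with energies bounded from below.
-/

set_option autoImplicit false

namespace Pool.Agent.L7h35.PW

open Finset Pool.Agent.L7h85.RL Pool.Agent.L7h85.PW Pool.Agent.L7h32.RL

universe u v

variable {Ob : Type u} {𝒮 : Sys Ob}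

/-- A simple object contained in `A` gives an inclusion of all constituents. -/
lemma sub_simple {S A : Ob} (hS : 𝒮.h S S = 1) (h : 𝒮.h S A ≠ 0) : Sub (cl 𝒮 S) (cl 𝒮 A) := by
  intro c hc
  induction c using Quotient.inductionOn with | _ C
  exact Pool.Agent.L7h26.RL.ne_zero_trans 𝒮 hS h hc

/-- A simple constituent of a product is one of a product of simple constituents. -/
lemma split_simple {X Y S : Ob} (h : 𝒮.h S (𝒮.ten X Y) ≠ 0) :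
    ∃ S1 S2, 𝒮.h S1 S1 = 1 ∧ 𝒮.h S2 S2 = 1 ∧ 𝒮.h S1 X ≠ 0 ∧ 𝒮.h S2 Y ≠ 0 ∧
      𝒮.h S (𝒮.ten S1 S2) ≠ 0 := by
  rw [𝒮.h_symm, 𝒮.adj] at h
  obtain ⟨S1, h1, h2, h3⟩ := exists_simple h
  rw [← 𝒮.adj, 𝒮.comm, 𝒮.adj] at h3
  obtain ⟨S2, h4, h5, h6⟩ := exists_simple h3
  rw [← 𝒮.adj, 𝒮.comm, 𝒮.h_symm] at h6
  exact ⟨S1, S2, h1, h4, h2, h5, h6⟩

/-- the simple types in the powers -/
def FF (r : Rep 𝒮) (A : Ob) : Set r.I := {i | ∃ n, 𝒮.h (r.s i) (𝒮.wq A n) ≠ 0}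

lemma simp_s (r : Rep 𝒮) (i : r.I) : 𝒮.h (r.s i) (r.s i) = 1 := by
  rw [Pool.Agent.L7h73.RL.Rp.h_s, r.v_s, Finsupp.single_eq_same]

lemma orth_s (r : Rep 𝒮) {i j : r.I} (h : i ≠ j) : 𝒮.h (r.s i) (r.s j) = 0 := by
  rw [Pool.Agent.L7h73.RL.Rp.h_s, r.v_s, Finsupp.single_eq_of_ne (Ne.symm h)]

/-- the type of a simple object -/
lemma type_s (r : Rep 𝒮) {S : Ob} (hS : 𝒮.h S S = 1) :
    ∃ i, (∀ A, 𝒮.h S A = 𝒮.h (r.s i) A) := by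
  obtain ⟨i, hi⟩ := Pool.Agent.L7h73.RL.Rp.simple r hS
  refine ⟨i, fun A => ?_⟩
  rw [𝒮.h_symm, Pool.Agent.L7h73.RL.Rp.simple_h r hi, ← Pool.Agent.L7h73.RL.Rp.h_s, 𝒮.h_symm]

lemma FF_finite (r : Rep 𝒮) {A : Ob} (hA : 0 < 𝒮.dim A) (hL : Low 𝒮 A) : (FF r A).Finite := by
  classical
  obtain ⟨R, hR⟩ := hL
  by_contra hinf
  obtain ⟨t, ht, hc⟩ := Set.Infinite.exists_subset_card_eq hinf (R + 1)
  have h1 := Pool.Agent.L7h26.RL.s_SUM (Pool.Agent.L7h73.RL.s_SCH Pool.Agent.L7h26.RL.s_REP) 𝒮 A R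
    hA hR t (fun i => r.s i.1) (fun i => simp_s r i.1)
    (fun i j h => orth_s r fun h' => h (Subtype.ext h')) (fun i => ht i.2)
  have h2 : Fintype.card t ≤ ∑ i : t, 𝒮.dim (r.s i.1) ^ 2 := by
    rw [Fintype.card_eq_sum_ones]
    refine Finset.sum_le_sum fun i _ => ?_
    exact Nat.one_le_pow _ _ (r.dim_pos i.1)
  rw [Fintype.card_coe, hc] at h2
  omega

lemma FF_nonempty (r : Rep 𝒮) {A : Ob} (hA : 0 < 𝒮.dim A) : (FF r A).Nonempty := by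
  have h1 : 0 < 𝒮.dim (𝒮.wq A 0) := by
    rw [dim_wq]
    positivity
  obtain ⟨S, hS, h2, -⟩ := exists_simple (h_self_pos h1)
  obtain ⟨i, hi⟩ := type_s r hS
  exact ⟨i, 0, by rwa [← hi]⟩

/-- `FF r A` is closed under `A* ⊗ A ⊗ _`. -/
lemma FF_closed (r : Rep 𝒮) {A : Ob} {i : r.I} (hi : i ∈ FF r A) {S : Ob} (hS : 𝒮.h S S = 1)
    (h : 𝒮.h S (𝒮.ten (𝒮.ten (𝒮.dual A) A) (r.s i)) ≠ 0) :
    ∃ j ∈ FF r A, ∀ C, 𝒮.h S C = 𝒮.h (r.s j) C := by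
  obtain ⟨n, hn⟩ := hi
  obtain ⟨j, hj⟩ := type_s r hS
  refine ⟨j, ⟨n + 1, ?_⟩, hj⟩
  rw [← hj]
  have h1 : Sub (cl 𝒮 (𝒮.ten (𝒮.ten (𝒮.dual A) A) (r.s i))) (cl 𝒮 (𝒮.wq A (n + 1))) := by
    have h2 : cl 𝒮 (𝒮.wq A (n + 1)) = cl 𝒮 (𝒮.ten (𝒮.dual A) A) * cl 𝒮 (𝒮.wq A n) := by
      rw [← wq_succ, mul_comm, cl_ten, cl_dual, mul_comm (sr (cl 𝒮 A))]
    rw [h2, cl_ten (𝒮.ten (𝒮.dual A) A)]
    exact (sub_simple (simp_s r i) hn).mul_left _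
  rw [𝒮.h_symm] at h ⊢
  exact h1 (cl 𝒮 S) h

theorem s_FTEN : S_FTEN.{u} := by
  intro Ob 𝒮 A B hA hB hLA hLB
  classical
  obtain ⟨r⟩ := Pool.Agent.L7h26.RL.s_REP 𝒮
  have fA := FF_finite r hA hLA
  have fB := FF_finite r hB hLB
  set G : Set r.I := ⋃ i ∈ FF r A, ⋃ j ∈ FF r B,
    ((r.v (𝒮.ten (r.s i) (r.s j))).support : Set r.I) with hG
  have fG : G.Finite := fA.biUnion fun i _ => fB.biUnion fun j _ => Finset.finite_toSet _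
  have mG : ∀ k, k ∈ G ↔ ∃ i ∈ FF r A, ∃ j ∈ FF r B, 𝒮.h (r.s k) (𝒮.ten (r.s i) (r.s j)) ≠ 0 := by
    intro k
    rw [hG]
    simp only [Set.mem_iUnion, Finset.mem_coe, Finsupp.mem_support_iff, exists_prop]
    constructor
    · rintro ⟨i, hi, j, hj, h⟩
      refine ⟨i, hi, j, hj, ?_⟩
      rw [𝒮.h_symm, Pool.Agent.L7h73.RL.Rp.h_s]
      exact h
    · rintro ⟨i, hi, j, hj, h⟩
      refine ⟨i, hi, j, hj, ?_⟩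
      rw [𝒮.h_symm, Pool.Agent.L7h73.RL.Rp.h_s] at h
      exact h
  have nG : G.Nonempty := by
    obtain ⟨i, hi⟩ := FF_nonempty r hA
    obtain ⟨j, hj⟩ := FF_nonempty r hB
    have h1 : 0 < 𝒮.dim (𝒮.ten (r.s i) (r.s j)) := by
      rw [𝒮.dim_ten]
      exact Nat.mul_pos (r.dim_pos i) (r.dim_pos j)
    obtain ⟨S, hS, h2, -⟩ := exists_simple (h_self_pos h1)
    obtain ⟨k, hk⟩ := type_s r hS
    refine ⟨k, (mG k).2 ⟨i, hi, j, hj, ?_⟩⟩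
    rwa [← hk]
  haveI : Nonempty fG.toFinset := by
    obtain ⟨k, hk⟩ := nG
    exact ⟨⟨k, fG.mem_toFinset.2 hk⟩⟩
  have hCLO := Pool.Agent.L7h73.RL.s_CLO Pool.Agent.L7h26.RL.s_REP
    (Pool.Agent.L7h73.RL.s_SCF Pool.Agent.L7h26.RL.s_REP) Pool.Agent.L7h26.RL.s_LOG 𝒮
    (𝒮.ten A B) fG.toFinset (fun i => r.s i.1) (fun i => simp_s r i.1)
    (fun i j h => orth_s r fun h' => h (Subtype.ext h')) ?_
  · exact ⟨_, hCLO⟩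
  rintro ⟨k, hk⟩ S' hS' h
  rw [fG.mem_toFinset, mG] at hk
  obtain ⟨i, hi, j, hj, hk⟩ := hk
  set X := 𝒮.ten (𝒮.ten (𝒮.dual A) A) (r.s i) with hX
  set Y := 𝒮.ten (𝒮.ten (𝒮.dual B) B) (r.s j) with hY
  have h1 : Sub (cl 𝒮 (𝒮.ten (𝒮.dual (𝒮.ten A B)) (𝒮.ten (𝒮.ten A B) (r.s k))))
      (cl 𝒮 (𝒮.ten X Y)) := by
    have h2 : cl 𝒮 (𝒮.ten X Y) = sr (cl 𝒮 (𝒮.ten A B)) * (cl 𝒮 (𝒮.ten A B) *
        cl 𝒮 (𝒮.ten (r.s i) (r.s j))) := by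
      simp only [hX, hY, cl_ten, cl_dual, sr_mul]
      ac_rfl
    rw [h2, cl_ten (𝒮.dual (𝒮.ten A B)), cl_dual, cl_ten (𝒮.ten A B) (r.s k)]
    exact ((sub_simple (simp_s r k) hk).mul_left _).mul_left _
  have h3 : 𝒮.h S' (𝒮.ten X Y) ≠ 0 := by
    rw [𝒮.h_symm] at h ⊢
    exact h1 (cl 𝒮 S') h
  obtain ⟨S1, S2, hS1, hS2, h4, h5, h6⟩ := split_simple h3
  obtain ⟨i', hi', e1⟩ := FF_closed r hi hS1 h4
  obtain ⟨j', hj', e2⟩ := FF_closed r hj hS2 h5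
  obtain ⟨k', hk'⟩ := type_s r hS'
  refine ⟨⟨k', fG.mem_toFinset.2 ((mG k').2 ⟨i', hi', j', hj', ?_⟩)⟩, ?_⟩
  · rw [← hk', 𝒮.h_symm]
    rw [𝒮.h_symm, 𝒮.adj, e1, ← 𝒮.adj, 𝒮.comm, 𝒮.adj, e2, ← 𝒮.adj, 𝒮.comm] at h6
    exact h6
  · show 𝒮.h S' (r.s k') ≠ 0
    rw [hk', simp_s]
    exact one_ne_zero

end Pool.Agent.L7h35.PW
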