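import Mathlib
import Pool.Agent.L7h35.PW.Ften
import Pool.Agent.L7h32.RL.Low
import Pool.Agent.L7h60.PW.Words

/-!
# Project PW (helper85): [FIN2]

The finite case.
-/

set_option autoImplicit false

namespace Pool.Agent.L7h35.PW

open Finset Pool.Agent.L7h85.RL Pool.Agent.L7h85.PW Pool.Agent.L7h32.RL

universe u v

variable {Ob : Type u} {𝒮 : Sys Ob}

lemma lt_pos {Λ : Type} (U : Λ → Ob) (hU : ∀ a, 0 < 𝒮.dim (U a)) (a : Λ) (l : List Λ) :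
    0 < 𝒮.dim (𝒮.lt U a l) := by
  induction l generalizing a with
  | nil => exact hU a
  | cons b l ih =>
    show 0 < 𝒮.dim (𝒮.ten (U a) (𝒮.lt U b l))
    rw [𝒮.dim_ten]
    exact Nat.mul_pos (hU a) (ih b)

lemma lt_low {Λ : Type} (U : Λ → Ob) (hU : ∀ a, 0 < 𝒮.dim (U a)) (hL : ∀ a, Low 𝒮 (U a))
    (a : Λ) (l : List Λ) : Low 𝒮 (𝒮.lt U a l) := by
  induction l generalizing a with
  | nil => exact hL a
  | cons b l ih => exact s_FTEN 𝒮 (U a) (𝒮.lt U b l) (hU a) (lt_pos U hU b l) (hL a) (ih b)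

lemma lt_dia {Λ : Type} (U : Λ → Ob) (hU : ∀ a, 0 < 𝒮.dim (U a)) (a : Λ) (l : List Λ) (b : Λ)
    (hb : b ∈ a :: l) : Sub (cl 𝒮 (U b) * sr (cl 𝒮 (U b)))
      (cl 𝒮 (𝒮.lt U a l) * sr (cl 𝒮 (𝒮.lt U a l))) := by
  induction l generalizing a with
  | nil =>
    rw [List.mem_singleton] at hb
    subst hb
    exact Sub.refl _
  | cons c l ih =>
    have h1 : cl 𝒮 (𝒮.lt U a (c :: l)) * sr (cl 𝒮 (𝒮.lt U a (c :: l))) =
        (cl 𝒮 (U a) * sr (cl 𝒮 (U a))) *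
          (cl 𝒮 (𝒮.lt U c l) * sr (cl 𝒮 (𝒮.lt U c l))) := by
      show cl 𝒮 (𝒮.ten (U a) (𝒮.lt U c l)) * sr (cl 𝒮 (𝒮.ten (U a) (𝒮.lt U c l))) = _
      rw [cl_ten, sr_mul]
      ac_rfl
    rw [h1]
    rcases List.mem_cons.1 hb with h | h
    · subst h
      exact sub_tri _ (lt_pos U hU c l)
    · refine (ih c h).trans ?_
      rw [mul_comm (cl 𝒮 (U a) * sr (cl 𝒮 (U a)))]
      exact sub_tri _ (hU a)

lemma wq_wq (P : Ob) (n : ℕ) :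
    cl 𝒮 (𝒮.wq (𝒮.wq P 0) n) = cl 𝒮 (𝒮.wq P (2 * n + 1)) := by
  apply WithOne.coe_injective
  rw [cl_wq, sr_wq, cl_wq P 0, cl_wq P (2 * n + 1)]
  have h1 : 2 * n + 1 + 1 = (n + 1) + (n + 1) := by ring
  rw [h1, pow_add _ (n + 1) (n + 1), pow_add _ (n + 1) (n + 1)]
  rw [zero_add, pow_one, pow_one, mul_pow]
  ac_rfl

lemma Sub_wq {A B : Ob} (h : Sub (cl 𝒮 A) (cl 𝒮 B)) (n : ℕ) :
    Sub (cl 𝒮 (𝒮.wq A n)) (cl 𝒮 (𝒮.wq B n)) :=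
  (Sub.pw h n).mul (Pool.Agent.L7h32.RL.Sub.sr (Sub.pw h n))

theorem s_FIN2 : S_FIN2.{u, v} := by
  intro Ob 𝒮 T hT V O R hV hs Λ' _ U' Γ' _ g' hU' Λ _ U Γ _ g hD hL
  classical
  obtain ⟨κ, hκ⟩ := s_GEN 𝒮 T hT V O R hV hs Λ' U' Γ' g' hU'
  have hne : (Finset.univ : Finset (Λ κ)).Nonempty := by
    by_contra h0
    rw [Finset.not_nonempty_iff_eq_empty] at h0
    have h1 := (hD κ).dim
    rw [h0, Finset.sum_empty, dim_pw] at h1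
    exact (pow_pos hV (κ + 1)).ne' h1
  obtain ⟨a, l, hal⟩ : ∃ (a : Λ κ) (l : List (Λ κ)), (Finset.univ : Finset (Λ κ)).toList = a :: l := by
    cases h : (Finset.univ : Finset (Λ κ)).toList with
    | nil =>
      rw [Finset.toList_eq_nil] at h
      exact absurd h hne.ne_empty
    | cons a l => exact ⟨a, l, rfl⟩
  have hall : ∀ b, b ∈ a :: l := fun b => by
    rw [← hal, Finset.mem_toList]
    exact Finset.mem_univ b
  set P := 𝒮.lt (U κ) a l with hP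
  have hP0 : 0 < 𝒮.dim P := lt_pos (U κ) (hD κ).pos a l
  obtain ⟨r, hr⟩ := lt_low (U κ) (hD κ).pos (hL κ) a l
  refine ⟨r, s_FIN (Pool.Agent.L7h73.RL.s_SCH Pool.Agent.L7h26.RL.s_REP)
    (Pool.Agent.L7h26.RL.s_SUM (Pool.Agent.L7h73.RL.s_SCH Pool.Agent.L7h26.RL.s_REP)) 𝒮 T hT V O R hs
    P r hP0 ?_ hr⟩
  have hO : Sub (cl 𝒮 (O κ)) (cl 𝒮 (𝒮.wq P 0)) := by
    apply sub_of
    intro S hS hSO
    have hTS : T S := hT.sub (hs κ).mem hS hSO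
    have h1 : 𝒮.h (𝒮.wq V κ) S ≠ 0 := by
      rw [(hs κ).split, 𝒮.h_symm (O κ)]
      omega
    have h2 := Pool.Agent.L7h60.PW.wq_sum 𝒮 (𝒮.pw V κ) (Λ κ) (U κ) (hD κ).sum 0 S
    change 𝒮.h (𝒮.wq V κ) S = _ at h2
    rw [h2] at h1
    obtain ⟨x, -, h3⟩ := Finset.exists_ne_zero_of_sum_ne_zero h1
    obtain ⟨y, -, h4⟩ := Finset.exists_ne_zero_of_sum_ne_zero h3
    have h5 : ∏ i, g κ (x i) = ∏ i, g κ (y i) := by
      by_contra h6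
      have h7 := (hD κ).no 0 x y h6 S hS hTS
      rw [𝒮.h_symm] at h7
      exact h4 h7
    rw [Fin.prod_univ_one, Fin.prod_univ_one] at h5
    have h6 := (hD κ).inj h5
    have h7 : hh (cl 𝒮 (U κ (x 0)) * sr (cl 𝒮 (U κ (x 0)))) (cl 𝒮 S) ≠ 0 := by
      have h8 : 𝒮.h (𝒮.ten (U κ (x 0)) (𝒮.dual (U κ (y 0)))) S ≠ 0 := h4
      rw [← h6] at h8
      exact h8
    have h8 := lt_dia (U κ) (hD κ).pos a l (x 0) (hall _) _ h7
    rw [𝒮.h_symm]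
    exact h8
  intro N S hS hTS hSN
  obtain ⟨n, hn⟩ := hκ N S hS hTS hSN
  refine ⟨2 * n + 1, ?_⟩
  rw [𝒮.h_symm] at hn ⊢
  have h1 := Sub_wq hO n (cl 𝒮 S) hn
  rw [wq_wq] at h1
  exact h1

end Pool.Agent.L7h35.PW
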